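import Pool.Agent.V11119.TriDec.LP

/-!
# Half-integral rational triangle decompositions of planar multigraphs

Every rationally `K₃`-decomposable planar multigraph has a rational `K₃`-decomposition with all
weights in `{0, 1/2, 1}`.

The weights are first added up over the parallel copies of every triangle of the underlying simple
graph. A solution of the resulting system whose support is linearly independent is half-integral:
this is shown by induction over the triangles of a straight-line drawing (`TriDec.claim`), looking at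
the maximal triangles properly inside a triangle. The half units are then distributed over the
parallel edges so that every edge gets exactly two of them.
-/

set_option autoImplicit false

namespace Pool.Agent.Results.MP_d6a58d_co.HalfIntegral

open Finset Pool.Agent.V11119.TriDec

section

variable {V E : Type} [Fintype V] [Fintype E] [DecidableEq E]

open scoped Classical in
/-- The vertices of a set of edges. -/
noncomputable def verts (M : MGraph V E) (t : Finset E) : Finset V :=
  univ.filter fun x => ∃ e ∈ t, x ∈ M.ends e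

/-- The number of parallel edges between two vertices. -/
def mult (M : MGraph V E) [DecidableEq (Sym2 V)] (u v : V) : ℕ :=
  (univ.filter fun e => M.ends e = s(u, v)).card

omit [Fintype E] in
open scoped Classical in
theorem verts_tri {M : MGraph V E} {u v w : V} {e f g : E} (he : M.ends e = s(u, v))
    (hf : M.ends f = s(v, w)) (hg : M.ends g = s(w, u)) :
    verts M {e, f, g} = {u, v, w} := by
  ext x
  simp only [verts, mem_filter, mem_univ, true_and, mem_insert, mem_singleton, exists_eq_or_imp,
    exists_eq_left, he, hf, hg, Sym2.mem_iff]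
  tauto

open scoped Classical in
theorem isTri_verts {M : MGraph V E} {t : Finset E} (ht : M.IsTriangle t) :
    IsTri M.simple (verts M t) := by
  obtain ⟨u, v, w, huv, hvw, hwu, e, f, g, he, hf, hg, rfl⟩ := ht
  rw [verts_tri he hf hg]
  exact ⟨u, v, w, rfl, ⟨e, he⟩, ⟨f, hf⟩, ⟨g, hg⟩⟩

open scoped Classical in
/-- A triangle of the multigraph has exactly one edge between any two of its vertices. -/
theorem card_edges {M : MGraph V E} {t : Finset E} (ht : M.IsTriangle t) {x y : V} (hxy : x ≠ y) :
    (t.filter fun e => M.ends e = s(x, y)).card = if x ∈ verts M t ∧ y ∈ verts M t then 1 else 0 := by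
  obtain ⟨u, v, w, huv, hvw, hwu, e, f, g, he, hf, hg, rfl⟩ := ht
  rw [verts_tri he hf hg]
  have key : ∀ a b c : V, ∀ e f g : E, a ≠ b → b ≠ c → c ≠ a → M.ends e = s(a, b) →
      M.ends f = s(b, c) → M.ends g = s(c, a) →
      (({e, f, g} : Finset E).filter fun e' => M.ends e' = s(a, b)).card = 1 := by
    intro a b c e f g hab hbc hca he hf hg
    have : ({e, f, g} : Finset E).filter (fun e' => M.ends e' = s(a, b)) = {e} := by
      ext e'
      simp only [mem_filter, mem_insert, mem_singleton]
      constructor
      · rintro ⟨rfl | rfl | rfl, h⟩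
        · rfl
        · rw [hf, Sym2.eq_iff] at h
          rcases h with ⟨h1, -⟩ | ⟨-, h1⟩
          · exact absurd h1.symm hab
          · exact absurd h1 hca
        · rw [hg, Sym2.eq_iff] at h
          rcases h with ⟨-, h1⟩ | ⟨h1, -⟩
          · exact absurd h1 hab
          · exact absurd h1.symm hbc
      · rintro rfl
        exact ⟨Or.inl rfl, he⟩
    rw [this, card_singleton]
  have r1 : ({e, f, g} : Finset E) = {f, g, e} := by
    ext z; simp only [mem_insert, mem_singleton]; tauto
  have r2 : ({e, f, g} : Finset E) = {g, e, f} := by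
    ext z; simp only [mem_insert, mem_singleton]; tauto
  by_cases h : x ∈ ({u, v, w} : Finset V) ∧ y ∈ ({u, v, w} : Finset V)
  · rw [if_pos h]
    obtain ⟨hx, hy⟩ := h
    simp only [mem_insert, mem_singleton] at hx hy
    rcases hx with rfl | rfl | rfl <;> rcases hy with rfl | rfl | rfl
    · exact absurd rfl hxy
    · exact key _ _ _ e f g huv hvw hwu he hf hg
    · rw [Sym2.eq_swap, r2]
      exact key _ _ _ g e f hwu huv hvw hg he hf
    · rw [Sym2.eq_swap]
      exact key _ _ _ e f g huv hvw hwu he hf hg
    · exact absurd rfl hxy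
    · rw [r1]
      exact key _ _ _ f g e hvw hwu huv hf hg he
    · rw [r2]
      exact key _ _ _ g e f hwu huv hvw hg he hf
    · rw [Sym2.eq_swap, r1]
      exact key _ _ _ f g e hvw hwu huv hf hg he
    · exact absurd rfl hxy
  · rw [if_neg h, card_eq_zero, filter_eq_empty_iff]
    intro e' he' h'
    apply h
    have hx : x ∈ M.ends e' := by rw [h']; simp
    have hy : y ∈ M.ends e' := by rw [h']; simp
    simp only [mem_insert, mem_singleton] at he' ⊢
    rcases he' with rfl | rfl | rfl
    · rw [he, Sym2.mem_iff] at hx hy; tauto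
    · rw [hf, Sym2.mem_iff] at hx hy; tauto
    · rw [hg, Sym2.mem_iff] at hx hy; tauto

open scoped Classical in
/-- Adding up a decomposition over parallel copies. -/
theorem aggregate {M : MGraph V E} {w : Finset E → ℚ} (hw : M.IsDecomposition w) :
    Solves M.simple (fun u v => mult M u v)
      (fun T => ∑ t ∈ univ.filter (fun t => verts M t = T), w t) := by
  have hzero : ∀ T, ¬ IsTri M.simple T → ∑ t ∈ univ.filter (fun t => verts M t = T), w t = 0 := by
    intro T hT
    apply sum_eq_zero
    intro t ht
    rw [mem_filter] at ht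
    apply hw.2.1
    intro htri
    apply hT
    rw [← ht.2]
    exact isTri_verts htri
  refine ⟨fun T => sum_nonneg fun t _ => hw.1 t, hzero, ?_⟩
  intro u v huv
  rw [FF_eq_sum hzero]
  -- both sides count the triangles on `uv`
  have h1 : ∑ T : Finset V, (∑ t ∈ univ.filter (fun t => verts M t = T), w t) * (chi T u v : ℚ) =
      ∑ t : Finset E, w t * (chi (verts M t) u v : ℚ) := by
    have h2 : ∀ T : Finset V, (∑ t ∈ univ.filter (fun t => verts M t = T), w t) * (chi T u v : ℚ) =
        ∑ t ∈ univ.filter (fun t => verts M t = T), w t * (chi (verts M t) u v : ℚ) := by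
      intro T
      rw [sum_mul]
      apply sum_congr rfl
      intro t ht
      rw [(mem_filter.1 ht).2]
    simp_rw [h2]
    exact sum_fiberwise _ _ _
  rw [h1]
  have h3 : ∀ t : Finset E, w t * (chi (verts M t) u v : ℚ) =
      ∑ e ∈ univ.filter (fun e => M.ends e = s(u, v)), if e ∈ t then w t else 0 := by
    intro t
    by_cases ht : M.IsTriangle t
    · rw [← sum_filter, sum_const, nsmul_eq_mul, mul_comm]
      congr 1
      have h4 := card_edges ht huv
      have h5 : (univ.filter (fun e => M.ends e = s(u, v))).filter (fun e => e ∈ t) =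
          t.filter fun e => M.ends e = s(u, v) := by
        ext e; simp only [mem_filter, mem_univ, true_and]; tauto
      rw [h5, h4]
      unfold chi
      split_ifs <;> simp
    · rw [hw.2.1 t ht, zero_mul]
      simp
  simp_rw [h3]
  rw [sum_comm]
  have h6 : ∀ e ∈ univ.filter (fun e => M.ends e = s(u, v)),
      (∑ t : Finset E, if e ∈ t then w t else 0) = 1 := by
    intro e _
    rw [← sum_filter]
    exact hw.2.2 e
  rw [sum_congr rfl h6, sum_const, nsmul_eq_mul, mul_one]
  rfl

/-- The half units. -/
abbrev Half (k : Finset V → ℕ) := Σ T : Finset V, Fin (k T)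

omit [DecidableEq E] in
open scoped Classical in
theorem half_equiv {M : MGraph V E} {k : Finset V → ℕ} (hk : ∀ T, ¬ IsTri M.simple T → k T = 0)
    (hsum : ∀ u v, u ≠ v → ∑ T ∈ (Tris M.simple).filter (fun T => u ∈ T ∧ v ∈ T), k T =
      2 * mult M u v) (s : Sym2 V) (hs : ¬ s.IsDiag) :
    Nonempty ({h : Half k // ∀ x ∈ s, x ∈ h.1} ≃ {e : E // M.ends e = s} × Fin 2) := by
  apply Fintype.card_eq.1
  induction s using Sym2.ind with
  | _ u v =>
    have huv : u ≠ v := fun h => hs (Sym2.mk_isDiag_iff.2 h)
    have h1 : Fintype.card {h : Half k // ∀ x ∈ s(u, v), x ∈ h.1} =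
        ∑ T ∈ (Tris M.simple).filter (fun T => u ∈ T ∧ v ∈ T), k T := by
      rw [Fintype.card_subtype]
      have h2 : (univ.filter fun h : Half k => ∀ x ∈ s(u, v), x ∈ h.1) =
          ((Tris M.simple).filter (fun T => u ∈ T ∧ v ∈ T)).sigma fun T => univ := by
        ext ⟨T, i⟩
        simp only [mem_filter, mem_univ, true_and, mem_sigma, and_true, Sym2.mem_iff,
          forall_eq_or_imp, forall_eq]
        constructor
        · intro h
          refine ⟨mem_Tris.2 ?_, h⟩
          by_contra hT
          have h3 := i.isLt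
          have h4 := hk T hT
          omega
        · exact fun h => h.2
      rw [h2, card_sigma]
      simp
    have h3 : Fintype.card ({e : E // M.ends e = s(u, v)} × Fin 2) = mult M u v * 2 := by
      rw [Fintype.card_prod, Fintype.card_fin, Fintype.card_subtype]
      rfl
    rw [h1, h3, hsum u v huv, mul_comm]

omit [Fintype V] in
open scoped Classical in
theorem sym2_cases {a b c : V} {s : Sym2 V} (hd : ¬ s.IsDiag)
    (hs : ∀ x ∈ s, x ∈ ({a, b, c} : Finset V)) : s = s(a, b) ∨ s = s(b, c) ∨ s = s(c, a) := by
  induction s using Sym2.ind with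
  | _ x y =>
    have hx := hs x (Sym2.mem_mk_left _ _)
    have hy := hs y (Sym2.mem_mk_right _ _)
    have hxy : x ≠ y := fun h => hd (Sym2.mk_isDiag_iff.2 h)
    simp only [mem_insert, mem_singleton] at hx hy
    rcases hx with rfl | rfl | rfl <;> rcases hy with rfl | rfl | rfl <;>
      first
        | exact absurd rfl hxy
        | exact Or.inl rfl
        | exact Or.inr (Or.inl rfl)
        | exact Or.inr (Or.inr rfl)
        | exact Or.inl Sym2.eq_swap
        | exact Or.inr (Or.inl Sym2.eq_swap)
        | exact Or.inr (Or.inr Sym2.eq_swap)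

open scoped Classical in
/-- Distributing half units over the parallel edges. -/
theorem distribute {M : MGraph V E} {k : Finset V → ℕ} (hk : ∀ T, ¬ IsTri M.simple T → k T = 0)
    (hsum : ∀ u v, u ≠ v → ∑ T ∈ (Tris M.simple).filter (fun T => u ∈ T ∧ v ∈ T), k T =
      2 * mult M u v) :
    ∃ w, M.IsDecomposition w ∧ ∀ t, w t = 0 ∨ w t = 1 / 2 ∨ w t = 1 := by
  let φ : ∀ s : Sym2 V, ¬ s.IsDiag →
      ({h : Half k // ∀ x ∈ s, x ∈ h.1} ≃ {e : E // M.ends e = s} × Fin 2) :=
    fun s hs => (half_equiv hk hsum s hs).some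
  -- the copy of a triangle that a half unit goes to
  let τ : Half k → Finset E := fun h => univ.filter fun e =>
    ∃ hs : ∀ x ∈ M.ends e, x ∈ h.1, (φ (M.ends e) (M.loopless e) ⟨h, hs⟩).1.1 = e
  have hτ : ∀ h e, e ∈ τ h ↔
      ∃ hs : ∀ x ∈ M.ends e, x ∈ h.1, (φ (M.ends e) (M.loopless e) ⟨h, hs⟩).1.1 = e := by
    intro h e; simp [τ]
  have hcongr : ∀ (h : Half k) (s s' : Sym2 V), s = s' → ∀ (hs : ¬ s.IsDiag) (hs' : ¬ s'.IsDiag)
      (q : ∀ x ∈ s, x ∈ h.1) (q' : ∀ x ∈ s', x ∈ h.1),
      (φ s hs ⟨h, q⟩).1.1 = (φ s' hs' ⟨h, q'⟩).1.1 := by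
    rintro h s _ rfl hs hs' q q'; rfl
  -- every edge gets two half units
  have htwo : ∀ e, (univ.filter fun h => e ∈ τ h).card = 2 := by
    intro e
    have h1 : (univ.filter fun h => e ∈ τ h) =
        univ.image fun j : Fin 2 => ((φ (M.ends e) (M.loopless e)).symm (⟨e, rfl⟩, j)).1 := by
      ext h
      simp only [mem_filter, mem_univ, true_and, mem_image, hτ]
      constructor
      · rintro ⟨hs, he⟩
        refine ⟨(φ (M.ends e) (M.loopless e) ⟨h, hs⟩).2, ?_⟩
        have h2 : ((⟨e, rfl⟩, (φ (M.ends e) (M.loopless e) ⟨h, hs⟩).2) :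
            {e' : E // M.ends e' = M.ends e} × Fin 2) = φ (M.ends e) (M.loopless e) ⟨h, hs⟩ :=
          Prod.ext (Subtype.ext he.symm) rfl
        rw [h2, Equiv.symm_apply_apply]
      · rintro ⟨j, rfl⟩
        refine ⟨((φ (M.ends e) (M.loopless e)).symm (⟨e, rfl⟩, j)).2, ?_⟩
        rw [Subtype.coe_eta, Equiv.apply_symm_apply]
    rw [h1, card_image_of_injective, card_univ, Fintype.card_fin]
    intro i j hij
    have h2 := (φ (M.ends e) (M.loopless e)).symm.injective (Subtype.ext hij)
    exact (Prod.ext_iff.1 h2).2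
  have htri : ∀ h, M.IsTriangle (τ h) := by
    rintro ⟨T, i⟩
    have hT : IsTri M.simple T := by
      by_contra hT
      have h3 := i.isLt
      have h4 := hk T hT
      omega
    obtain ⟨a, b, c, rfl, hab, hbc, hca⟩ := hT
    have d1 : ¬ (s(a, b)).IsDiag := fun h => hab.ne (Sym2.mk_isDiag_iff.1 h)
    have d2 : ¬ (s(b, c)).IsDiag := fun h => hbc.ne (Sym2.mk_isDiag_iff.1 h)
    have d3 : ¬ (s(c, a)).IsDiag := fun h => hca.ne (Sym2.mk_isDiag_iff.1 h)
    have m1 : ∀ x ∈ s(a, b), x ∈ ({a, b, c} : Finset V) := by
      intro x hx; rw [Sym2.mem_iff] at hx; simp only [mem_insert, mem_singleton]; tauto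
    have m2 : ∀ x ∈ s(b, c), x ∈ ({a, b, c} : Finset V) := by
      intro x hx; rw [Sym2.mem_iff] at hx; simp only [mem_insert, mem_singleton]; tauto
    have m3 : ∀ x ∈ s(c, a), x ∈ ({a, b, c} : Finset V) := by
      intro x hx; rw [Sym2.mem_iff] at hx; simp only [mem_insert, mem_singleton]; tauto
    set h : Half k := ⟨{a, b, c}, i⟩ with hh
    set e := φ s(a, b) d1 ⟨h, m1⟩ with he
    set f := φ s(b, c) d2 ⟨h, m2⟩ with hf
    set g := φ s(c, a) d3 ⟨h, m3⟩ with hg
    refine ⟨a, b, c, hab.ne, hbc.ne, hca.ne, e.1.1, f.1.1, g.1.1, e.1.2, f.1.2, g.1.2, ?_⟩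
    ext z
    rw [hτ]
    simp only [mem_insert, mem_singleton]
    constructor
    · rintro ⟨hs, hz⟩
      rcases sym2_cases (M.loopless z) hs with hc | hc | hc
      · left
        exact hz.symm.trans (hcongr h _ _ hc (M.loopless z) d1 hs m1)
      · right; left
        exact hz.symm.trans (hcongr h _ _ hc (M.loopless z) d2 hs m2)
      · right; right
        exact hz.symm.trans (hcongr h _ _ hc (M.loopless z) d3 hs m3)
    · rintro (hz | hz | hz)
      · have hc : M.ends z = s(a, b) := by rw [hz]; exact e.1.2
        refine ⟨by rw [hc]; exact m1, ?_⟩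
        rw [hcongr h _ _ hc (M.loopless z) d1 _ m1, hz]
      · have hc : M.ends z = s(b, c) := by rw [hz]; exact f.1.2
        refine ⟨by rw [hc]; exact m2, ?_⟩
        rw [hcongr h _ _ hc (M.loopless z) d2 _ m2, hz]
      · have hc : M.ends z = s(c, a) := by rw [hz]; exact g.1.2
        refine ⟨by rw [hc]; exact m3, ?_⟩
        rw [hcongr h _ _ hc (M.loopless z) d3 _ m3, hz]
  let w : Finset E → ℚ := fun t => (1 / 2) * ((univ.filter fun h => τ h = t).card : ℚ)
  have hsumw : ∀ e, ∑ t ∈ univ.filter (fun t => e ∈ t), w t = 1 := by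
    intro e
    simp only [w]
    rw [← mul_sum, ← Nat.cast_sum]
    have h1 : ∑ t ∈ univ.filter (fun t => e ∈ t), (univ.filter fun h => τ h = t).card =
        (univ.filter fun h => e ∈ τ h).card := by
      rw [card_eq_sum_card_fiberwise (f := τ) (t := univ.filter (fun t => e ∈ t))]
      · apply sum_congr rfl
        intro t ht
        rw [mem_filter] at ht
        congr 1
        ext h
        simp only [mem_filter, mem_univ, true_and]
        constructor
        · rintro rfl; exact ⟨ht.2, rfl⟩
        · exact fun h => h.2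
      · intro h hh
        simp only [coe_filter, mem_univ, true_and, Set.mem_ofPred_eq] at hh ⊢
        exact hh
    rw [h1, htwo e]
    norm_num
  refine ⟨w, ⟨?_, ?_, hsumw⟩, ?_⟩
  · intro t; simp only [w]; positivity
  · intro t ht
    simp only [w]
    have : (univ.filter fun h => τ h = t) = ∅ := by
      rw [filter_eq_empty_iff]
      intro h _ h'
      exact ht (h' ▸ htri h)
    rw [this]; simp
  · intro t
    have h2 : (univ.filter fun h => τ h = t).card ≤ 2 := by
      rcases (univ.filter fun h => τ h = t).eq_empty_or_nonempty with h0 | ⟨h0, hh0⟩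
      · rw [h0]; simp
      · rw [mem_filter] at hh0
        obtain ⟨-, hh0⟩ := hh0
        obtain ⟨a, b, c, -, -, -, e, f, g, -, -, -, he⟩ := htri h0
        rw [← htwo e]
        apply card_le_card
        intro h' hh'
        rw [mem_filter] at hh' ⊢
        refine ⟨mem_univ _, ?_⟩
        rw [hh'.2, ← hh0, he]
        simp
    simp only [w]
    generalize (univ.filter fun h => τ h = t).card = n at h2
    interval_cases n <;> norm_num

/-- Every rationally `K₃`-decomposable planar multigraph has a rational `K₃`-decomposition with all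
weights in `{0, 1/2, 1}`. -/
theorem result : ∀ (V E : Type) [Fintype V] [Fintype E] [DecidableEq E] (M : MGraph V E),
    M.Planar → (∃ w, M.IsDecomposition w) →
      ∃ w, M.IsDecomposition w ∧ ∀ t, w t = 0 ∨ w t = 1 / 2 ∨ w t = 1 := by
  classical
  rintro V E _ _ _ M ⟨p, hp⟩ ⟨w, hw⟩
  obtain ⟨k, hk, hsum⟩ := exists_half hp (aggregate hw)
  exact distribute hk hsum

end

end Pool.Agent.Results.MP_d6a58d_co.HalfIntegral
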